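import Mathlib

open Finset

namespace H11.Pi2

variable {𝕜 : Type} [RCLike 𝕜] {X : Type} [NormedAddCommGroup X] [NormedSpace 𝕜 X]

variable (𝕜) in
/-- The weak `ℓ₂` norm of a finite family: the supremum over the dual unit ball. -/
noncomputable def weak {m : ℕ} (x : Fin m → X) : ℝ :=
  ⨆ f : {f : X →L[𝕜] 𝕜 // ‖f‖ ≤ 1}, √(∑ i, ‖f.1 (x i)‖ ^ 2)

/-- `C` is an admissible constant in the 2-summing inequality for `T`. -/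
def Adm (T : X →L[𝕜] X) (C : ℝ) : Prop :=
  0 ≤ C ∧ ∀ (m : ℕ) (x : Fin m → X), √(∑ i, ‖T (x i)‖ ^ 2) ≤ C * weak 𝕜 x

/-- The 2-summing norm. -/
noncomputable def pi2 (T : X →L[𝕜] X) : ℝ := sInf {C | Adm T C}

/-- `φ` is a norm-one functional on `Π₂(X, X)` with `φ T = π₂ T`. -/
def Norming (T : X →L[𝕜] X) (φ : (X →L[𝕜] X) →ₗ[𝕜] 𝕜) : Prop :=
  IsLUB {r | ∃ S, pi2 S ≤ 1 ∧ r = ‖φ S‖} 1 ∧ φ T = pi2 T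

theorem bd {m : ℕ} (x : Fin m → X) (f : {f : X →L[𝕜] 𝕜 // ‖f‖ ≤ 1}) :
    √(∑ i, ‖f.1 (x i)‖ ^ 2) ≤ √(∑ i, ‖x i‖ ^ 2) := by
  gcongr with i
  exact (f.1.le_opNorm _).trans (mul_le_of_le_one_left (norm_nonneg _) f.2)

theorem le_weak {m : ℕ} (x : Fin m → X) (f : X →L[𝕜] 𝕜) (h : ‖f‖ ≤ 1) :
    ∑ i, ‖f (x i)‖ ^ 2 ≤ weak 𝕜 x ^ 2 :=
  Real.sqrt_le_iff.1 (le_ciSup (f := fun f : {f : X →L[𝕜] 𝕜 // ‖f‖ ≤ 1} =>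
    √(∑ i, ‖f.1 (x i)‖ ^ 2)) ⟨_, Set.forall_mem_range.2 (bd x)⟩ ⟨f, h⟩) |>.2

theorem adm (S : 𝕜 × 𝕜 →L[𝕜] 𝕜 × 𝕜) (C : ℝ) (hC : 0 ≤ C)
    (h : ∀ x, ‖S x‖ ≤ C * (‖x.1‖ + ‖x.2‖)) : Adm S (2 * C) := by
  refine ⟨by positivity, fun m x => ?_⟩
  have h1 := le_weak x _ (ContinuousLinearMap.norm_fst_le 𝕜 𝕜 𝕜)
  have h2 := le_weak x _ (ContinuousLinearMap.norm_snd_le 𝕜 𝕜 𝕜)
  have h0 : 0 ≤ weak 𝕜 x := Real.iSup_nonneg fun _ => Real.sqrt_nonneg _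
  have h3 : ∑ i, ‖S (x i)‖ ^ 2 ≤ ∑ i, 2 * C ^ 2 * (‖(x i).1‖ ^ 2 + ‖(x i).2‖ ^ 2) :=
    sum_le_sum fun i _ => (pow_le_pow_left₀ (norm_nonneg _) (h _) 2).trans (by
      nlinarith [mul_nonneg (sq_nonneg C) (sq_nonneg (‖(x i).1‖ - ‖(x i).2‖))])
  rw [← mul_sum, sum_add_distrib] at h3
  simp only [ContinuousLinearMap.coe_fst', ContinuousLinearMap.coe_snd'] at h1 h2
  refine Real.sqrt_le_iff.2 ⟨by positivity, h3.trans ?_⟩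
  nlinarith [sq_nonneg C]

theorem pi2_le {S : X →L[𝕜] X} {C : ℝ} (h : Adm S C) : pi2 S ≤ C :=
  csInf_le ⟨0, fun _ h => h.1⟩ h

theorem le_pi2 (S : 𝕜 × 𝕜 →L[𝕜] 𝕜 × 𝕜) (x : 𝕜 × 𝕜) (hx : ‖x‖ ≤ 1) : ‖S x‖ ≤ pi2 S := by
  refine le_csInf ⟨_, adm S ‖S‖ (norm_nonneg _) fun x => (S.le_opNorm x).trans ?_⟩ fun C hC => ?_
  · gcongr
    exact max_le (by simp) (by simp)
  · have h1 := hC.2 1 fun _ => x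
    have h2 : weak 𝕜 (fun _ : Fin 1 => x) ≤ 1 :=
      Real.iSup_le (fun f => (bd _ f).trans (by simpa)) zero_le_one
    simp only [Fin.sum_univ_one, Real.sqrt_sq (norm_nonneg _)] at h1
    exact h1.trans (mul_le_of_le_one_right hC.1 h2)

noncomputable def H (𝕜 : Type) [RCLike 𝕜] : 𝕜 × 𝕜 →L[𝕜] 𝕜 × 𝕜 :=
  (ContinuousLinearMap.fst 𝕜 𝕜 𝕜 + .snd 𝕜 𝕜 𝕜).prod (.fst 𝕜 𝕜 𝕜 - .snd 𝕜 𝕜 𝕜)

theorem H_le (x : 𝕜 × 𝕜) : ‖H 𝕜 x‖ ≤ ‖x.1‖ + ‖x.2‖ := max_le (norm_add_le _ _) (norm_sub_le _ _)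

theorem norming (φ : (𝕜 × 𝕜 →L[𝕜] 𝕜 × 𝕜) →ₗ[𝕜] 𝕜) (h : ∀ S, ‖φ S‖ ≤ pi2 S) (h2 : φ (H 𝕜) = 2) :
    Norming (H 𝕜) φ := by
  refine ⟨IsGreatest.isLUB ⟨⟨(1 / 2 : 𝕜) • H 𝕜, ?_, by simp [h2]⟩, ?_⟩, ?_⟩
  · refine (pi2_le (adm _ (1 / 2) (by norm_num) fun x => ?_)).trans (by norm_num)
    have := H_le x
    simp only [ContinuousLinearMap.smul_apply, norm_smul]
    simp
    linarith
  · rintro _ ⟨S, hS, rfl⟩; exact (h S).trans hS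
  · have h3 := pi2_le (adm (H 𝕜) 1 zero_le_one fun x => by simpa using H_le x)
    have h4 := h (H 𝕜)
    rw [h2, RCLike.norm_two] at h4
    rw [h2, show pi2 (H 𝕜) = 2 by linarith]
    exact (RCLike.ofReal_ofNat 2).symm

end H11.Pi2

open H11.Pi2

theorem Pool.Agent.Results.MP_0c20fd_an.Counter.result (𝕜 : Type) [RCLike 𝕜] :
    ∃ T : 𝕜 × 𝕜 →L[𝕜] 𝕜 × 𝕜, Function.Bijective T ∧
      ∃ φ ψ : (𝕜 × 𝕜 →L[𝕜] 𝕜 × 𝕜) →ₗ[𝕜] 𝕜, φ ≠ ψ ∧ Norming T φ ∧ Norming T ψ := by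
  refine ⟨H 𝕜, Function.bijective_iff_has_inverse.2 ⟨fun y => ((y.1 + y.2) / 2, (y.1 - y.2) / 2),
    fun x => by ext <;> simp [H], fun x => by ext <;> simp [H] <;> ring⟩,
    ⟨⟨fun S => (S (1, 1)).1, by simp⟩, by simp⟩, ⟨⟨fun S => (S (1, -1)).2, by simp⟩, by simp⟩,
    fun h => ?_, norming _ (fun S => (norm_fst_le _).trans (le_pi2 S _ (by simp))) ?_,
    norming _ (fun S => (norm_snd_le _).trans (le_pi2 S _ (by simp))) ?_⟩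
  · have := LinearMap.congr_fun h (.inl 𝕜 𝕜 𝕜 ∘L .fst 𝕜 𝕜 𝕜)
    simp at this
  · simp [H]; norm_num
  · simp [H]; norm_num
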