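import Mathlib

open Metric

namespace Pool.Agent.Results.MP_0c20fd_an.Hadamard

/-- The weak l2 norm of a finite family. -/
noncomputable def weak2 (𝕜 : Type) [RCLike 𝕜] {X : Type} [NormedAddCommGroup X] [NormedSpace 𝕜 X]
    {m : ℕ} (x : Fin m → X) : ℝ :=
  ⨆ φ : closedBall (0 : StrongDual 𝕜 X) 1, √(∑ i, ‖φ.1 (x i)‖ ^ 2)

/-- The 2-summing norm: the infimum of the admissible constants. -/
noncomputable def pi2 {𝕜 : Type} [RCLike 𝕜] {X : Type} [NormedAddCommGroup X] [NormedSpace 𝕜 X]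
    (T : X →L[𝕜] X) : ℝ :=
  sInf {C : ℝ | 0 ≤ C ∧ ∀ (m : ℕ) (x : Fin m → X), √(∑ i, ‖T (x i)‖ ^ 2) ≤ C * weak2 𝕜 x}

/-- A linear functional of dual norm one for the 2-summing norm. -/
def NormOne {𝕜 : Type} [RCLike 𝕜] {X : Type} [NormedAddCommGroup X] [NormedSpace 𝕜 X]
    (f : (X →L[𝕜] X) →ₗ[𝕜] 𝕜) : Prop :=
  IsLeast {C : ℝ | ∀ S, ‖f S‖ ≤ C * pi2 S} 1

/-- On the two-dimensional sup-norm space, over the reals and over the complex numbers, the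
2-summing norm has two distinct norming functionals at an invertible operator. -/
theorem result (𝕜 : Type) [RCLike 𝕜] : ∃ T : (Fin 2 → 𝕜) →L[𝕜] (Fin 2 → 𝕜), IsUnit T ∧
    ∃ f g : ((Fin 2 → 𝕜) →L[𝕜] (Fin 2 → 𝕜)) →ₗ[𝕜] 𝕜, f ≠ g ∧ NormOne f ∧ NormOne g ∧
      f T = (pi2 T : ℝ) ∧ g T = (pi2 T : ℝ) := by
  have bdd : ∀ {m : ℕ} (x : Fin m → Fin 2 → 𝕜), BddAbove (Set.range fun
      φ : closedBall (0 : StrongDual 𝕜 (Fin 2 → 𝕜)) 1 => √(∑ i, ‖φ.1 (x i)‖ ^ 2)) := by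
    intro m x
    refine ⟨√(∑ i, ‖x i‖ ^ 2), ?_⟩
    rintro _ ⟨φ, rfl⟩
    refine Real.sqrt_le_sqrt (Finset.sum_le_sum fun i _ => ?_)
    have := φ.1.le_of_opNorm_le (mem_closedBall_zero_iff.mp φ.2) (x i)
    rw [one_mul] at this
    gcongr
  have co : ∀ {m : ℕ} (x : Fin m → Fin 2 → 𝕜) (j : Fin 2),
      ∑ i, ‖x i j‖ ^ 2 ≤ weak2 𝕜 x ^ 2 := by
    intro m x j
    have := le_ciSup (bdd x) ⟨ContinuousLinearMap.proj j, mem_closedBall_zero_iff.mpr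
      (ContinuousLinearMap.opNorm_le_bound _ zero_le_one fun v => by
        simpa using norm_le_pi_norm v j)⟩
    exact (Real.sqrt_le_iff.mp this).2
  have w0 : ∀ {m : ℕ} (x : Fin m → Fin 2 → 𝕜), 0 ≤ weak2 𝕜 x := fun x =>
    Real.iSup_nonneg fun _ => Real.sqrt_nonneg _
  have adm : ∀ (S : (Fin 2 → 𝕜) →L[𝕜] (Fin 2 → 𝕜)) (c : ℝ), 0 ≤ c →
      (∀ v, ‖S v‖ ≤ c * (‖v 0‖ + ‖v 1‖)) →
      ∀ (m : ℕ) (x : Fin m → Fin 2 → 𝕜), √(∑ i, ‖S (x i)‖ ^ 2) ≤ 2 * c * weak2 𝕜 x := by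
    intro S c hc h m x
    refine Real.sqrt_le_iff.mpr ⟨by have := w0 x; positivity, ?_⟩
    calc ∑ i, ‖S (x i)‖ ^ 2 ≤ ∑ i, 2 * c ^ 2 * (‖x i 0‖ ^ 2 + ‖x i 1‖ ^ 2) :=
          Finset.sum_le_sum fun i _ => (pow_le_pow_left₀ (norm_nonneg _) (h _) 2).trans (by
            nlinarith [mul_nonneg (sq_nonneg c) (sq_nonneg (‖x i 0‖ - ‖x i 1‖))])
      _ ≤ _ := by
          rw [← Finset.mul_sum, Finset.sum_add_distrib]
          nlinarith [mul_le_mul_of_nonneg_left (add_le_add (co x 0) (co x 1)) (sq_nonneg c)]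
  have low : ∀ (S : (Fin 2 → 𝕜) →L[𝕜] (Fin 2 → 𝕜)) (v : Fin 2 → 𝕜), ‖v‖ ≤ 1 → ∀ j,
      ‖S v j‖ ≤ pi2 S := by
    intro S v hv j
    refine le_csInf ⟨2 * ‖S‖, by positivity, adm S _ (norm_nonneg _) fun v => ?_⟩ ?_
    · refine S.le_opNorm_of_le ((pi_norm_le_iff_of_nonneg (by positivity)).mpr fun i => ?_)
      fin_cases i <;> simp
    rintro C ⟨c0, hC⟩
    have h1 := hC 1 fun _ => v
    have h2 : weak2 𝕜 (fun _ : Fin 1 => v) ≤ 1 := Real.iSup_le (fun φ => by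
      have := φ.1.le_of_opNorm_le (mem_closedBall_zero_iff.mp φ.2) v
      simpa using this.trans (by linarith)) zero_le_one
    simp only [Finset.univ_unique, Finset.sum_singleton, norm_nonneg, Real.sqrt_sq] at h1
    nlinarith [norm_le_pi_norm (S v) j]
  let T : (Fin 2 → 𝕜) →L[𝕜] (Fin 2 → 𝕜) :=
    LinearMap.toContinuousLinearMap (Matrix.toLin' !![1, 1; 1, -1])
  have hT : ∀ v, T v = ![v 0 + v 1, v 0 - v 1] := fun v => by
    ext i; fin_cases i <;> simp [T, Matrix.vecHead, Matrix.vecTail, sub_eq_add_neg]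
  let ev : (Fin 2 → 𝕜) → Fin 2 → ((Fin 2 → 𝕜) →L[𝕜] (Fin 2 → 𝕜)) →ₗ[𝕜] 𝕜 := fun v j =>
    { toFun := fun S => S v j, map_add' := fun _ _ => rfl, map_smul' := fun _ _ => rfl }
  have n1 : ‖(![1, 1] : Fin 2 → 𝕜)‖ ≤ 1 := (pi_norm_le_iff_of_nonneg zero_le_one).mpr fun i => by
    fin_cases i <;> simp
  have n2 : ‖(![1, -1] : Fin 2 → 𝕜)‖ ≤ 1 := (pi_norm_le_iff_of_nonneg zero_le_one).mpr fun i => by
    fin_cases i <;> simp
  have e1 : T ![1, 1] 0 = 2 := by rw [hT]; simp [one_add_one_eq_two]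
  have e2 : T ![1, -1] 1 = 2 := by rw [hT]; simp [one_add_one_eq_two]
  have p2 : pi2 T = 2 := by
    refine le_antisymm (csInf_le ⟨0, fun _ h => h.1⟩ ⟨zero_le_two, ?_⟩) ?_
    · simpa using adm T 1 zero_le_one fun v => by
        rw [hT, one_mul]
        refine (pi_norm_le_iff_of_nonneg (by positivity)).mpr fun i => ?_
        fin_cases i
        · exact norm_add_le _ _
        · exact norm_sub_le _ _
    · simpa [e1] using low T _ n1 0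
  have no : ∀ v j, ‖v‖ ≤ 1 → T v j = 2 → NormOne (ev v j) := fun v j hv h =>
    ⟨fun S => by simpa [ev] using low S v hv j, fun C hC => by
      have : ‖T v j‖ ≤ C * pi2 T := hC T
      rw [h, p2, RCLike.norm_two] at this
      linarith⟩
  refine ⟨T, ?_, ev ![1, 1] 0, ev ![1, -1] 1, fun h => ?_, no _ _ n1 e1, no _ _ n2 e2,
    by rw [p2, RCLike.ofReal_ofNat]; exact e1, by rw [p2, RCLike.ofReal_ofNat]; exact e2⟩
  · have : T * ((2 : 𝕜)⁻¹ • T) = 1 ∧ ((2 : 𝕜)⁻¹ • T) * T = 1 := by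
      constructor <;> ext v i <;> fin_cases i <;> simp [hT] <;> field_simp <;> ring
    exact ⟨⟨T, _, this.1, this.2⟩, rfl⟩
  · have : (1 : 𝕜) = -1 := by simpa [ev] using LinearMap.congr_fun h 1
    exact two_ne_zero (α := 𝕜) (by linear_combination this)

end Pool.Agent.Results.MP_0c20fd_an.Hadamard
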